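import Mathlib

/-!
The theorem of Bárány and Grinberg: rounding a point of the cube when the columns are in the
`ℓ_1` ball.
-/

set_option autoImplicit false

namespace Pool.Agent.H19.Kom

open Finset

/-- moving along a direction until some coordinate of `F` becomes `±1` -/
lemma exists_hit {J : Type*} (F : Finset J) (x u : J → ℝ) (hx : ∀ j ∈ F, |x j| ≤ 1)
    (hu : ∃ j ∈ F, u j ≠ 0) :
    ∃ t : ℝ, (∀ j ∈ F, |x j + t * u j| ≤ 1) ∧ ∃ j ∈ F, x j + t * u j = 1 ∨ x j + t * u j = -1 := by
  classical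
  obtain ⟨T, hT⟩ : ∃ T : J → ℝ, ∀ j, T j = if 0 < u j then (1 - x j) / u j else (-1 - x j) / u j :=
    ⟨_, fun _ => rfl⟩
  obtain ⟨j0, hj0, hu0⟩ := hu
  obtain ⟨j1, hj1, hmin⟩ := Finset.exists_min_image (F.filter (fun j => u j ≠ 0)) T
    ⟨j0, Finset.mem_filter.mpr ⟨hj0, hu0⟩⟩
  rw [Finset.mem_filter] at hj1
  have hT0 : ∀ j ∈ F, u j ≠ 0 → 0 ≤ T j := by
    intro j hj hne
    have h1 := abs_le.mp (hx j hj)
    rw [hT]
    split_ifs with h
    · exact div_nonneg (by linarith) h.le
    · have : u j < 0 := lt_of_le_of_ne (not_lt.mp h) hne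
      exact div_nonneg_of_nonpos (by linarith) this.le
  have ht := hT0 j1 hj1.1 hj1.2
  refine ⟨T j1, fun j hj => ?_, j1, hj1.1, ?_⟩
  · by_cases hne : u j = 0
    · rw [hne, mul_zero, add_zero]; exact hx j hj
    · have h1 := hmin j (Finset.mem_filter.mpr ⟨hj, hne⟩)
      have h2 := abs_le.mp (hx j hj)
      rw [abs_le]
      have h3 := hT j
      split_ifs at h3 with h
      · have h4 : T j1 * u j ≤ T j * u j := mul_le_mul_of_nonneg_right h1 h.le
        have h5 : T j * u j = 1 - x j := by rw [h3]; field_simp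
        have h6 : 0 ≤ T j1 * u j := mul_nonneg ht h.le
        constructor <;> linarith
      · have hneg : u j < 0 := lt_of_le_of_ne (not_lt.mp h) hne
        have h4 : T j * u j ≤ T j1 * u j := mul_le_mul_of_nonpos_right h1 hneg.le
        have h5 : T j * u j = -1 - x j := by rw [h3]; field_simp
        have h6 : T j1 * u j ≤ 0 := mul_nonpos_of_nonneg_of_nonpos ht hneg.le
        constructor <;> linarith
  · have h3 := hT j1
    have hne := hj1.2
    split_ifs at h3 with h
    · left; rw [h3]; field_simp; ring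
    · right; rw [h3]; field_simp; ring

/-- a nonzero solution of few equations -/
lemma exists_kernel {J ι : Type*} [Fintype ι] (F : Finset J) (A : Finset ι) (c : J → ι → ℝ)
    (h : A.card < F.card) :
    ∃ u : J → ℝ, (∃ j ∈ F, u j ≠ 0) ∧ (∀ j, j ∉ F → u j = 0) ∧ ∀ i ∈ A, ∑ j ∈ F, u j * c j i = 0 := by
  classical
  let f : (F → ℝ) →ₗ[ℝ] (A → ℝ) :=
    { toFun := fun u i => ∑ j : F, u j * c j i
      map_add' := by
        intro u v
        funext i
        simp [add_mul, Finset.sum_add_distrib]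
      map_smul' := by
        intro a u
        funext i
        simp [mul_assoc, Finset.mul_sum] }
  have hk : LinearMap.ker f ≠ ⊥ := by
    apply LinearMap.ker_ne_bot_of_finrank_lt
    simpa using h
  obtain ⟨u, hu, hne⟩ := Submodule.exists_mem_ne_zero_of_ne_bot hk
  rw [LinearMap.mem_ker] at hu
  obtain ⟨j0, hj0⟩ := Function.ne_iff.mp hne
  refine ⟨fun j => if h : j ∈ F then u ⟨j, h⟩ else 0, ⟨j0, j0.2, ?_⟩, ?_, ?_⟩
  · simpa using hj0
  · intro j hj
    simp [hj]
  · intro i hi
    have h1 : f u ⟨i, hi⟩ = 0 := by rw [hu]; rfl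
    have h2 : f u ⟨i, hi⟩ = ∑ j : F, u j * c j i := rfl
    rw [h2] at h1
    rw [← h1, ← Finset.sum_coe_sort F]
    apply Finset.sum_congr rfl
    intro j _
    simp

theorem bg_aux {J ι : Type*} [Fintype ι] (c : J → ι → ℝ) (hc : ∀ j, ∑ i, |c j i| ≤ 1) :
    ∀ (N : ℕ) (F : Finset J), F.card = N → ∀ x : J → ℝ, (∀ j ∈ F, |x j| ≤ 1) →
      ∃ y : J → ℝ, (∀ j ∈ F, y j = 1 ∨ y j = -1) ∧ (∀ j, j ∉ F → y j = x j) ∧
        ∀ i, |∑ j ∈ F, (y j - x j) * c j i| ≤ 2 := by
  classical
  intro N
  induction N with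
  | zero =>
    intro F hF x _
    rw [Finset.card_eq_zero] at hF
    subst hF
    exact ⟨x, by simp, fun _ _ => rfl, by simp⟩
  | succ N ih =>
    intro F hF x hx
    set A : Finset ι := Finset.univ.filter (fun i => 1 < ∑ j ∈ F, |c j i|) with hA
    have hcard : A.card < F.card := by
      by_contra hcon
      push Not at hcon
      have h1 : ∑ i ∈ A, ∑ j ∈ F, |c j i| ≤ F.card := by
        calc ∑ i ∈ A, ∑ j ∈ F, |c j i| ≤ ∑ i, ∑ j ∈ F, |c j i| :=
              Finset.sum_le_sum_of_subset_of_nonneg (Finset.subset_univ _)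
                (fun i _ _ => Finset.sum_nonneg fun j _ => abs_nonneg _)
          _ = ∑ j ∈ F, ∑ i, |c j i| := Finset.sum_comm
          _ ≤ ∑ _j ∈ F, (1 : ℝ) := Finset.sum_le_sum fun j _ => hc j
          _ = F.card := by simp
      have hne : A.Nonempty := by
        rw [← Finset.card_pos]; omega
      have h2 : (A.card : ℝ) < ∑ i ∈ A, ∑ j ∈ F, |c j i| := by
        calc (A.card : ℝ) = ∑ _i ∈ A, (1 : ℝ) := by simp
          _ < _ := Finset.sum_lt_sum_of_nonempty hne (fun i hi => (Finset.mem_filter.mp hi).2)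
      have h3 : (F.card : ℝ) ≤ A.card := by exact_mod_cast hcon
      linarith
    obtain ⟨u, hu1, hu2, hu3⟩ := exists_kernel F A c hcard
    obtain ⟨t, ht1, j0, hj0, ht2⟩ := exists_hit F x u hx hu1
    obtain ⟨y, hy1, hy2, hy3⟩ := ih (F.erase j0) (by rw [Finset.card_erase_of_mem hj0]; omega)
      (fun j => x j + t * u j) (fun j hj => ht1 j (Finset.mem_of_mem_erase hj))
    have hyF : ∀ j ∈ F, y j = 1 ∨ y j = -1 := by
      intro j hj
      by_cases h : j = j0
      · subst h
        rw [hy2 j (Finset.notMem_erase j F)]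
        exact ht2
      · exact hy1 j (Finset.mem_erase.mpr ⟨h, hj⟩)
    refine ⟨y, hyF, ?_, ?_⟩
    · intro j hj
      rw [hy2 j (fun h => hj (Finset.mem_of_mem_erase h)), hu2 j hj]
      simp
    · intro i
      by_cases hi : i ∈ A
      · have h1 : ∑ j ∈ F, (y j - x j) * c j i =
            ∑ j ∈ F.erase j0, (y j - (x j + t * u j)) * c j i := by
          have h2 : ∑ j ∈ F, (y j - x j) * c j i =
              ∑ j ∈ F, (y j - (x j + t * u j)) * c j i + t * ∑ j ∈ F, u j * c j i := by
            rw [Finset.mul_sum, ← Finset.sum_add_distrib]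
            apply Finset.sum_congr rfl
            intro j _
            ring
          rw [h2, hu3 i hi, mul_zero, add_zero, ← Finset.add_sum_erase F _ hj0,
            hy2 j0 (Finset.notMem_erase j0 F)]
          simp
        rw [h1]
        exact hy3 i
      · have h1 : ∑ j ∈ F, |c j i| ≤ 1 := by
          by_contra hcon
          push Not at hcon
          exact hi (Finset.mem_filter.mpr ⟨Finset.mem_univ _, hcon⟩)
        calc |∑ j ∈ F, (y j - x j) * c j i| ≤ ∑ j ∈ F, |(y j - x j) * c j i| :=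
              Finset.abs_sum_le_sum_abs _ _
          _ ≤ ∑ j ∈ F, 2 * |c j i| := by
              apply Finset.sum_le_sum
              intro j hj
              rw [abs_mul]
              gcongr
              have h2 := abs_le.mp (hx j hj)
              rcases hyF j hj with h3 | h3 <;> rw [h3, abs_le] <;> constructor <;> linarith
          _ = 2 * ∑ j ∈ F, |c j i| := by rw [Finset.mul_sum]
          _ ≤ 2 := by linarith

/-- **Bárány and Grinberg.** -/
theorem bg {J ι : Type*} [Fintype J] [Fintype ι] (c : J → ι → ℝ) (hc : ∀ j, ∑ i, |c j i| ≤ 1)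
    (x : J → ℝ) (hx : ∀ j, |x j| ≤ 1) :
    ∃ y : J → ℝ, (∀ j, y j = 1 ∨ y j = -1) ∧ ∀ i, |∑ j, (y j - x j) * c j i| ≤ 2 := by
  obtain ⟨y, h1, -, h3⟩ := bg_aux c hc _ Finset.univ rfl x (fun j _ => hx j)
  exact ⟨y, fun j => h1 j (Finset.mem_univ j), h3⟩

end Pool.Agent.H19.Kom
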