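import Pool.Agent.H19.Kom.Rep

/-!
Functions of bounded variation on `ℤ^m` as combinations of dyadic boxes.
-/

set_option autoImplicit false

namespace Pool.Agent.H19.Kom

open Finset
open scoped ENNReal

variable {m : ℕ}

/-- index of the block of `x` -/
def pr (k : Fin m → ℕ) (x : Fin m → ℤ) : Fin m → ℤ := fun i => x i / 2 ^ k i

/-- sums over a block -/
noncomputable def bs (v : (Fin m → ℤ) → ℝ) (k : Fin m → ℕ) (q : Fin m → ℤ) : ℝ :=
  ∑' y, if pr k y = q then v y else 0

/-- averages over a block -/
noncomputable def av (v : (Fin m → ℤ) → ℝ) (k : Fin m → ℕ) (q : Fin m → ℤ) : ℝ :=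
  (∏ i, (1 / 2 : ℝ) ^ k i) * bs v k q

/-- the `ℓ_1` norm -/
noncomputable def n1 (f : (Fin m → ℤ) → ℝ) : ℝ≥0∞ := ∑' x, ENNReal.ofReal |f x|

lemma summ {f : (Fin m → ℤ) → ℝ} (hf : (Function.support f).Finite) : Summable f :=
  summable_of_hasFiniteSupport hf

lemma fs_ite {v : (Fin m → ℤ) → ℝ} (hv : (Function.support v).Finite) (P : (Fin m → ℤ) → Prop)
    [DecidablePred P] : (Function.support (fun y => if P y then v y else 0)).Finite := by
  apply hv.subset
  intro y hy
  rw [Function.mem_support] at hy ⊢
  intro h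
  apply hy
  simp [h]

lemma bs_zero (v : (Fin m → ℤ) → ℝ) (q : Fin m → ℤ) : bs v (fun _ => 0) q = v q := by
  unfold bs
  have h : ∀ y : Fin m → ℤ, pr (fun _ => 0) y = y := fun y => by
    funext i; simp [pr]
  simp_rw [h]
  exact tsum_ite_eq q v

lemma ofReal_abs_tsum_le (f : (Fin m → ℤ) → ℝ) :
    ENNReal.ofReal |∑' x, f x| ≤ ∑' x, ENNReal.ofReal |f x| := by
  have h := enorm_tsum_le_tsum_enorm (f := f)
  simp only [← ofReal_norm_eq_enorm, Real.norm_eq_abs] at h
  exact h

lemma n1_bs_le (f : (Fin m → ℤ) → ℝ) (k : Fin m → ℕ) : n1 (bs f k) ≤ n1 f := by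
  unfold n1 bs
  calc ∑' q, ENNReal.ofReal |∑' y, if pr k y = q then f y else 0|
      ≤ ∑' q, ∑' y, (if pr k y = q then ENNReal.ofReal |f y| else 0) := by
        apply ENNReal.tsum_le_tsum
        intro q
        refine (ofReal_abs_tsum_le _).trans (ENNReal.tsum_le_tsum fun y => ?_)
        split_ifs <;> simp
    _ = ∑' y, ∑' q, (if pr k y = q then ENNReal.ofReal |f y| else 0) := ENNReal.tsum_comm
    _ = ∑' y, ENNReal.ofReal |f y| := by
        congr 1; ext1 y
        rw [tsum_eq_single (pr k y)]
        · simp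
        · intro q hq
          rw [if_neg (fun h => hq h.symm)]

lemma n1_add_le (f g : (Fin m → ℤ) → ℝ) : n1 (fun x => f x + g x) ≤ n1 f + n1 g := by
  unfold n1
  rw [← ENNReal.tsum_add]
  apply ENNReal.tsum_le_tsum
  intro x
  rw [← ENNReal.ofReal_add (abs_nonneg _) (abs_nonneg _)]
  exact ENNReal.ofReal_le_ofReal (abs_add_le _ _)

lemma n1_translate (f : (Fin m → ℤ) → ℝ) (a : Fin m → ℤ) : n1 (fun x => f (x + a)) = n1 f :=
  (Equiv.addRight a).tsum_eq (fun x => ENNReal.ofReal |f x|)

lemma n1_smul (f : (Fin m → ℤ) → ℝ) {a : ℝ} (ha : 0 ≤ a) :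
    n1 (fun x => a * f x) = ENNReal.ofReal a * n1 f := by
  unfold n1
  rw [← ENNReal.tsum_mul_left]
  congr 1; ext1 x
  rw [abs_mul, abs_of_nonneg ha, ENNReal.ofReal_mul ha]

lemma n1_shift (v : (Fin m → ℤ) → ℝ) (i : Fin m) (L : ℕ) :
    n1 (fun x => v (x + Pi.single i (L : ℤ)) - v x) ≤
      L * n1 (fun x => v (x + Pi.single i 1) - v x) := by
  induction L with
  | zero => simp [n1]
  | succ L ih =>
    obtain ⟨f, hf⟩ : ∃ f : (Fin m → ℤ) → ℝ, ∀ x, f x = v (x + Pi.single i 1) - v x :=
      ⟨_, fun _ => rfl⟩
    have hfe : (fun x => v (x + Pi.single i 1) - v x) = f := (funext hf).symm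
    rw [hfe] at ih ⊢
    have e : (fun x => v (x + Pi.single i ((L + 1 : ℕ) : ℤ)) - v x) = fun x =>
        f (x + Pi.single i (L : ℤ)) + (v (x + Pi.single i (L : ℤ)) - v x) := by
      funext x
      have : x + Pi.single i ((L + 1 : ℕ) : ℤ) = x + Pi.single i (L : ℤ) + Pi.single i 1 := by
        rw [add_assoc, ← Pi.single_add]; push_cast; rfl
      rw [this, hf]; ring
    rw [e]
    refine (n1_add_le _ _).trans ?_
    rw [n1_translate f (Pi.single i (L : ℤ)), Nat.cast_succ, add_mul, one_mul, add_comm]
    exact add_le_add ih le_rfl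

lemma pr_add (k : Fin m → ℕ) (x : Fin m → ℤ) (i : Fin m) :
    pr k (x + Pi.single i (2 ^ k i)) = pr k x + Pi.single i 1 := by
  funext j
  simp only [pr, Pi.add_apply]
  by_cases h : j = i
  · subst h
    rw [Pi.single_eq_same, Pi.single_eq_same, Int.add_ediv_of_dvd_right (dvd_refl _),
      Int.ediv_self (by positivity)]
  · rw [Pi.single_eq_of_ne h, Pi.single_eq_of_ne h, add_zero, add_zero]

lemma bs_diff {v : (Fin m → ℤ) → ℝ} (hv : (Function.support v).Finite) (k : Fin m → ℕ) (i : Fin m)
    (q : Fin m → ℤ) : bs v k (q + Pi.single i 1) - bs v k q =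
      bs (fun x => v (x + Pi.single i (2 ^ k i)) - v x) k q := by
  have e1 : bs v k (q + Pi.single i 1) = ∑' x, if pr k x = q then v (x + Pi.single i (2 ^ k i)) else 0 := by
    unfold bs
    rw [← (Equiv.addRight (Pi.single i (2 ^ k i) : Fin m → ℤ)).tsum_eq]
    congr 1; ext1 x
    have h2 : pr k ((Equiv.addRight (Pi.single i (2 ^ k i) : Fin m → ℤ)) x) =
        pr k x + Pi.single i 1 := pr_add k x i
    by_cases h : pr k x = q
    · rw [if_pos h, if_pos (by rw [h2, h])]
      rfl
    · rw [if_neg h, if_neg (fun h' => h (add_left_injective _ (h2.symm.trans h')))]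
  have hv' : (Function.support (fun x : Fin m → ℤ => v (x + Pi.single i (2 ^ k i)))).Finite := by
    have : Function.support (fun x : Fin m → ℤ => v (x + Pi.single i (2 ^ k i))) =
        (fun x : Fin m → ℤ => x + Pi.single i (2 ^ k i)) ⁻¹' Function.support v := rfl
    rw [this]
    exact hv.preimage (add_left_injective _).injOn
  rw [e1]
  unfold bs
  rw [← Summable.tsum_sub (summ (fs_ite hv' _)) (summ (fs_ite hv _))]
  congr 1; ext1 x
  split_ifs <;> simp

/-- the horizontal variation of the averages -/
lemma n1_av_diff {v : (Fin m → ℤ) → ℝ} (hv : (Function.support v).Finite) (k : Fin m → ℕ)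
    (i : Fin m) : n1 (fun q => av v k (q + Pi.single i 1) - av v k q) ≤
      ENNReal.ofReal ((∏ j, (1 / 2 : ℝ) ^ k j) * 2 ^ k i) *
        n1 (fun x => v (x + Pi.single i 1) - v x) := by
  have hp : 0 ≤ ∏ j, (1 / 2 : ℝ) ^ k j := Finset.prod_nonneg fun _ _ => by positivity
  have e : (fun q => av v k (q + Pi.single i 1) - av v k q) = fun q =>
      (∏ j, (1 / 2 : ℝ) ^ k j) * bs (fun x => v (x + Pi.single i (2 ^ k i)) - v x) k q := by
    funext q
    unfold av
    rw [← bs_diff hv]; ring
  rw [e, n1_smul _ hp, ENNReal.ofReal_mul hp, mul_assoc]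
  gcongr
  refine (n1_bs_le _ k).trans ?_
  have h := n1_shift v i (2 ^ k i)
  push_cast at h
  have e2 : ENNReal.ofReal (2 ^ k i) = 2 ^ k i := by
    rw [ENNReal.ofReal_pow (by norm_num)]; norm_num
  rw [e2]
  exact h

lemma av_support {v : (Fin m → ℤ) → ℝ} (hv : (Function.support v).Finite) (k : Fin m → ℕ) :
    (Function.support (av v k)).Finite := by
  apply (hv.image (pr k)).subset
  intro q hq
  rw [Function.mem_support] at hq
  by_contra hcon
  apply hq
  unfold av bs
  have : ∀ y, (if pr k y = q then v y else 0) = 0 := by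
    intro y
    split_ifs with h
    · by_contra hne
      exact hcon ⟨y, hne, h⟩
    · rfl
  simp_rw [this]
  simp

/-- refinement of the blocks in the direction `i` -/
lemma av_refine {v : (Fin m → ℤ) → ℝ} (hv : (Function.support v).Finite) (k : Fin m → ℕ)
    (i : Fin m) (q : Fin m → ℤ) : av v (Function.update k i (k i + 1)) q =
      (av v k (Function.update q i (2 * q i)) + av v k (Function.update q i (2 * q i + 1))) / 2 := by
  have hprod : ∏ j, (1 / 2 : ℝ) ^ (Function.update k i (k i + 1)) j =
      (∏ j, (1 / 2 : ℝ) ^ k j) / 2 := by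
    rw [← Finset.mul_prod_erase Finset.univ _ (Finset.mem_univ i),
      ← Finset.mul_prod_erase Finset.univ (fun j => (1 / 2 : ℝ) ^ k j) (Finset.mem_univ i)]
    rw [Function.update_self, pow_succ]
    have : ∏ j ∈ Finset.univ.erase i, (1 / 2 : ℝ) ^ (Function.update k i (k i + 1)) j =
        ∏ j ∈ Finset.univ.erase i, (1 / 2 : ℝ) ^ k j := by
      apply Finset.prod_congr rfl
      intro j hj
      rw [Function.update_of_ne (Finset.ne_of_mem_erase hj)]
    rw [this]; ring
  have hiff : ∀ y, pr (Function.update k i (k i + 1)) y = q ↔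
      (pr k y = Function.update q i (2 * q i) ∨ pr k y = Function.update q i (2 * q i + 1)) := by
    intro y
    have h1 : pr (Function.update k i (k i + 1)) y i = pr k y i / 2 := by
      simp only [pr]
      rw [Function.update_self, pow_succ, Int.ediv_ediv_of_nonneg (by positivity)]
    have h2 : ∀ j, j ≠ i → pr (Function.update k i (k i + 1)) y j = pr k y j := by
      intro j hj
      simp only [pr]
      rw [Function.update_of_ne hj]
    constructor
    · intro h
      have h3 : pr k y i = 2 * q i ∨ pr k y i = 2 * q i + 1 := by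
        rw [← h, h1]; omega
      rcases h3 with h3 | h3
      · left
        funext j
        by_cases hj : j = i
        · subst hj; rw [Function.update_self]; exact h3
        · rw [Function.update_of_ne hj, ← h, h2 j hj]
      · right
        funext j
        by_cases hj : j = i
        · subst hj; rw [Function.update_self]; exact h3
        · rw [Function.update_of_ne hj, ← h, h2 j hj]
    · intro h
      funext j
      by_cases hj : j = i
      · subst hj
        rw [h1]
        rcases h with h | h <;> rw [h, Function.update_self] <;> omega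
      · rw [h2 j hj]
        rcases h with h | h <;> rw [h, Function.update_of_ne hj]
  have hne : Function.update q i (2 * q i) ≠ Function.update q i (2 * q i + 1) := by
    intro h
    have := congrFun h i
    rw [Function.update_self, Function.update_self] at this
    omega
  have hbs : bs v (Function.update k i (k i + 1)) q =
      bs v k (Function.update q i (2 * q i)) + bs v k (Function.update q i (2 * q i + 1)) := by
    unfold bs
    rw [← Summable.tsum_add (summ (fs_ite hv _)) (summ (fs_ite hv _))]
    congr 1; ext1 y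
    by_cases h1 : pr k y = Function.update q i (2 * q i)
    · rw [if_pos ((hiff y).2 (Or.inl h1)), if_pos h1, if_neg (by rw [h1]; exact hne), add_zero]
    · by_cases h2 : pr k y = Function.update q i (2 * q i + 1)
      · rw [if_pos ((hiff y).2 (Or.inr h2)), if_neg h1, if_pos h2, zero_add]
      · rw [if_neg (fun h => ((hiff y).1 h).elim h1 h2), if_neg h1, if_neg h2, add_zero]
  unfold av
  rw [hprod, hbs]
  ring

lemma pr_update (k : Fin m → ℕ) (i : Fin m) (x : Fin m → ℤ) :
    pr (Function.update k i (k i + 1)) x = Function.update (pr k x) i (pr k x i / 2) := by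
  funext j
  by_cases hj : j = i
  · subst hj
    rw [Function.update_self]
    simp only [pr]
    rw [Function.update_self, pow_succ, Int.ediv_ediv_of_nonneg (by positivity)]
  · rw [Function.update_of_ne hj]
    simp only [pr]
    rw [Function.update_of_ne hj]

/-- a function which is constant on the blocks of a level -/
lemma Rep.level (k : Fin m → ℕ) (d : (Fin m → ℤ) → ℝ) (hd : (Function.support d).Finite) :
    Rep (fun x => d (pr k x)) (n1 d * ENNReal.ofReal (∏ i, (5 / 4 : ℝ) ^ k i)) := by
  classical
  obtain ⟨g, hg⟩ : ∃ g : (Fin m → ℤ) → Row m, ∀ q, g q = fun j => (k j, q j) := ⟨_, fun _ => rfl⟩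
  have hginj : Function.Injective g := by
    intro q q' h
    rw [hg, hg] at h
    funext j
    have := congrFun h j
    exact (Prod.ext_iff.mp this).2
  obtain ⟨c0, hc0⟩ : ∃ c0 : Row m → ℝ, ∀ r, c0 r = if (∀ j, (r j).1 = k j) then
      d (fun j => (r j).2) else 0 := ⟨_, fun _ => rfl⟩
  have hc0g : ∀ q, c0 (g q) = d q := by
    intro q
    rw [hc0, hg]
    simp
  have hsupp : Function.support c0 ⊆ g '' Function.support d := by
    intro r hr
    rw [Function.mem_support, hc0] at hr
    split_ifs at hr with h
    · refine ⟨fun j => (r j).2, hr, ?_⟩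
      rw [hg]
      funext j
      exact Prod.ext (h j).symm rfl
    · exact absurd rfl hr
  have hfin : (Function.support c0).Finite := (hd.image g).subset hsupp
  refine ⟨Finsupp.ofSupportFinite c0 hfin, fun x => ?_, ?_⟩
  · have hbx : ∀ r, c0 r ≠ 0 → bx r x ≠ 0 → r = g (pr k x) := by
      intro r h1 h2
      obtain ⟨q, hq, rfl⟩ := hsupp h1
      congr 1
      funext j
      unfold bx at h2
      rw [Finset.prod_ne_zero_iff] at h2
      have h3 := h2 j (Finset.mem_univ j)
      rw [hg] at h3
      simp only [ne_eq, ite_eq_right_iff, one_ne_zero, imp_false, not_not] at h3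
      exact h3.symm
    have hbx1 : bx (g (pr k x)) x = 1 := by
      unfold bx
      apply Finset.prod_eq_one
      intro j _
      rw [hg]
      simp [pr]
    simp only
    rw [Finsupp.sum, Finset.sum_eq_single (g (pr k x))]
    · rw [hbx1, mul_one]
      exact (hc0g _).symm
    · intro r hr hne
      have h1 : c0 r ≠ 0 := by
        rw [Finsupp.mem_support_iff] at hr
        exact hr
      by_cases h2 : bx r x = 0
      · rw [h2, mul_zero]
      · exact absurd (hbx r h1 h2) hne
    · intro h
      rw [Finsupp.notMem_support_iff] at h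
      rw [h, zero_mul]
  · have e : ∀ r, (Finsupp.ofSupportFinite c0 hfin) r = c0 r := fun r => rfl
    simp_rw [e]
    have h1 : ∑' r, ENNReal.ofReal (|c0 r| * wt r) =
        ∑' q, ENNReal.ofReal (|c0 (g q)| * wt (g q)) := by
      rw [hginj.tsum_eq (f := fun r => ENNReal.ofReal (|c0 r| * wt r))]
      intro r hr
      rw [Function.mem_support] at hr
      have : c0 r ≠ 0 := by
        intro h
        rw [h, abs_zero, zero_mul, ENNReal.ofReal_zero] at hr
        exact hr rfl
      obtain ⟨q, _, rfl⟩ := hsupp this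
      exact ⟨q, rfl⟩
    rw [h1]
    unfold n1
    rw [← ENNReal.tsum_mul_right]
    apply ENNReal.tsum_le_tsum
    intro q
    rw [hc0g, ENNReal.ofReal_mul (abs_nonneg _), hg]
    rfl

/-- **one refinement step** -/
lemma Rep.step {v : (Fin m → ℤ) → ℝ} (hv : (Function.support v).Finite) (k : Fin m → ℕ)
    (i : Fin m) : Rep (fun x => av v k (pr k x) -
        av v (Function.update k i (k i + 1)) (pr (Function.update k i (k i + 1)) x))
      (ENNReal.ofReal ((∏ j, (5 / 8 : ℝ) ^ k j) * 2 ^ k i) *
        n1 (fun x => v (x + Pi.single i 1) - v x)) := by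
  obtain ⟨D, hD⟩ : ∃ D : (Fin m → ℤ) → ℝ, ∀ q, D q = av v k (q + Pi.single i 1) - av v k q :=
    ⟨_, fun _ => rfl⟩
  obtain ⟨d, hd⟩ : ∃ d : (Fin m → ℤ) → ℝ, ∀ q, d q = av v k q -
      av v (Function.update k i (k i + 1)) (Function.update q i (q i / 2)) := ⟨_, fun _ => rfl⟩
  have hdD : ∀ q, |d q| ≤ (1 / 2) * |D q| + (1 / 2) * |D (q + Pi.single i (-1))| := by
    intro q
    have h1 := abs_nonneg (D q)
    have h2 := abs_nonneg (D (q + Pi.single i (-1)))
    rw [hd, av_refine hv]
    rw [Function.update_self, Function.update_idem, Function.update_idem]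
    rcases Int.emod_two_eq_zero_or_one (q i) with h | h
    · have e1 : Function.update q i (2 * (q i / 2)) = q := by
        rw [show 2 * (q i / 2) = q i by omega, Function.update_eq_self]
      have e2 : Function.update q i (2 * (q i / 2) + 1) = q + Pi.single i 1 := by
        rw [show 2 * (q i / 2) = q i by omega]
        funext j
        by_cases hj : j = i
        · subst hj; simp
        · simp [hj]
      rw [e1, e2]
      have e3 : av v k q - (av v k q + av v k (q + Pi.single i 1)) / 2 = -(1 / 2) * D q := by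
        rw [hD]; ring
      rw [e3, abs_mul, abs_neg, abs_of_pos (by norm_num : (0 : ℝ) < 1 / 2)]
      linarith
    · have e1 : Function.update q i (2 * (q i / 2)) = q + Pi.single i (-1) := by
        rw [show 2 * (q i / 2) = q i + -1 by omega]
        funext j
        by_cases hj : j = i
        · subst hj; simp
        · simp [hj]
      have e2 : Function.update q i (2 * (q i / 2) + 1) = q := by
        rw [show 2 * (q i / 2) + 1 = q i by omega, Function.update_eq_self]
      rw [e1, e2]
      have e4 : q + Pi.single i (-1) + Pi.single i 1 = q := by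
        rw [add_assoc, ← Pi.single_add]; simp
      have e3 : av v k q - (av v k (q + Pi.single i (-1)) + av v k q) / 2 =
          (1 / 2) * D (q + Pi.single i (-1)) := by
        rw [hD, e4]; ring
      rw [e3, abs_mul, abs_of_pos (by norm_num : (0 : ℝ) < 1 / 2)]
      linarith
  have hDs : (Function.support D).Finite := by
    apply ((av_support hv k).union ((av_support hv k).preimage
      (add_left_injective (Pi.single i 1 : Fin m → ℤ)).injOn)).subset
    intro q hq
    by_contra hcon
    rw [Set.mem_union, not_or] at hcon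
    apply hq
    rw [hD]
    have h1 : av v k q = 0 := by
      by_contra h; exact hcon.1 h
    have h2 : av v k (q + Pi.single i 1) = 0 := by
      by_contra h; exact hcon.2 h
    rw [h1, h2, sub_zero]
  have hds : (Function.support d).Finite := by
    apply (hDs.union (hDs.preimage (add_left_injective (Pi.single i (-1) : Fin m → ℤ)).injOn)).subset
    intro q hq
    by_contra hcon
    rw [Set.mem_union, not_or] at hcon
    have h1 : D q = 0 := by
      by_contra h; exact hcon.1 h
    have h2 : D (q + Pi.single i (-1)) = 0 := by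
      by_contra h; exact hcon.2 h
    have h3 := hdD q
    rw [h1, h2, abs_zero, mul_zero, add_zero] at h3
    exact hq (abs_nonpos_iff.mp h3)
  have hn : n1 d ≤ n1 D := by
    calc n1 d ≤ ∑' q, (ENNReal.ofReal (1 / 2) * ENNReal.ofReal |D q| +
          ENNReal.ofReal (1 / 2) * ENNReal.ofReal |D (q + Pi.single i (-1))|) := by
          unfold n1
          apply ENNReal.tsum_le_tsum
          intro q
          rw [← ENNReal.ofReal_mul (by norm_num), ← ENNReal.ofReal_mul (by norm_num),
            ← ENNReal.ofReal_add (by positivity) (by positivity)]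
          exact ENNReal.ofReal_le_ofReal (hdD q)
      _ = ENNReal.ofReal (1 / 2) * n1 D +
          ENNReal.ofReal (1 / 2) * n1 (fun q => D (q + Pi.single i (-1))) := by
          rw [ENNReal.tsum_add, ENNReal.tsum_mul_left, ENNReal.tsum_mul_left]
          rfl
      _ = (ENNReal.ofReal (1 / 2) + ENNReal.ofReal (1 / 2)) * n1 D := by
          rw [n1_translate D, add_mul]
      _ = n1 D := by
          rw [← ENNReal.ofReal_add (by norm_num) (by norm_num)]
          norm_num
  refine Rep.congr ((Rep.level k d hds).mono ?_) (fun x => ?_)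
  · have hDe : D = fun q => av v k (q + Pi.single i 1) - av v k q := funext hD
    calc n1 d * ENNReal.ofReal (∏ i, (5 / 4 : ℝ) ^ k i)
        ≤ (ENNReal.ofReal ((∏ j, (1 / 2 : ℝ) ^ k j) * 2 ^ k i) *
            n1 (fun x => v (x + Pi.single i 1) - v x)) *
            ENNReal.ofReal (∏ i, (5 / 4 : ℝ) ^ k i) := by
          gcongr
          refine hn.trans ?_
          rw [hDe]
          exact n1_av_diff hv k i
      _ = _ := by
          rw [mul_right_comm, ← ENNReal.ofReal_mul (by positivity)]
          congr 2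
          rw [mul_right_comm, ← Finset.prod_mul_distrib]
          congr 1
          apply Finset.prod_congr rfl
          intro j _
          rw [← mul_pow]
          norm_num
  · rw [hd, pr_update]

/-- near isotropic levels -/
def kp (m t i : ℕ) : Fin m → ℕ := fun j => if (j : ℕ) < i then t + 1 else t

lemma kp_succ (t : ℕ) (i : Fin m) :
    Function.update (kp m t i) i (kp m t i i + 1) = kp m t (i + 1) := by
  funext j
  by_cases hj : j = i
  · subst hj
    rw [Function.update_self]
    simp [kp]
  · rw [Function.update_of_ne hj]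
    have : (j : ℕ) ≠ i := fun h => hj (Fin.ext h)
    simp only [kp]
    split_ifs <;> omega

lemma kp_self (t : ℕ) (i : Fin m) : kp m t i i = t := by simp [kp]

lemma kp_top (t : ℕ) : kp m t m = fun _ => t + 1 := by
  funext j; simp [kp]

lemma kp_zero (t : ℕ) : kp m t 0 = fun _ => t := by
  funext j; simp [kp]

/-- **functions of bounded variation** -/
theorem Rep.bv (hm : 2 ≤ m) {v : (Fin m → ℤ) → ℝ} (hv : (Function.support v).Finite)
    (htv : ∑ i, n1 (fun x => v (x + Pi.single i 1) - v x) ≤ 1) :
    Rep v (ENNReal.ofReal 6) := by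
  obtain ⟨T1, hT1⟩ : ∃ T1 : Fin m → ℝ≥0∞, ∀ i, T1 i = n1 (fun x => v (x + Pi.single i 1) - v x) :=
    ⟨_, fun _ => rfl⟩
  simp_rw [← hT1] at htv
  obtain ⟨E, hE⟩ : ∃ E : (Fin m → ℕ) → (Fin m → ℤ) → ℝ, ∀ k x, E k x = av v k (pr k x) :=
    ⟨_, fun _ _ => rfl⟩
  -- one dyadic level
  have hlev : ∀ t : ℕ, Rep (fun x => E (fun _ => t) x - E (fun _ => t + 1) x)
      (ENNReal.ofReal ((25 / 32) ^ t)) := by
    intro t
    have h1 : Rep (fun x => ∑ i : Fin m, (E (kp m t i) x - E (kp m t (i + 1)) x))
        (∑ i : Fin m, ENNReal.ofReal ((25 / 32) ^ t) * T1 i) := by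
      apply Rep.sum
      intro i _
      refine Rep.congr ((Rep.step hv (kp m t i) i).mono ?_) (fun x => ?_)
      · rw [← hT1]
        gcongr
        rw [kp_self]
        have h2 : ∏ j, (5 / 8 : ℝ) ^ kp m t i j ≤ ∏ _j : Fin m, (5 / 8 : ℝ) ^ t := by
          apply Finset.prod_le_prod (fun j _ => by positivity)
          intro j _
          apply pow_le_pow_of_le_one (by norm_num) (by norm_num)
          simp only [kp]
          split_ifs <;> omega
        have h3 : ∏ _j : Fin m, (5 / 8 : ℝ) ^ t ≤ ((5 / 8 : ℝ) ^ t) ^ 2 := by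
          rw [Finset.prod_const, Finset.card_univ, Fintype.card_fin]
          exact pow_le_pow_of_le_one (by positivity) (pow_le_one₀ (by norm_num) (by norm_num)) hm
        calc (∏ j, (5 / 8 : ℝ) ^ kp m t i j) * 2 ^ t ≤ ((5 / 8 : ℝ) ^ t) ^ 2 * 2 ^ t := by
              gcongr
              exact h2.trans h3
          _ = (25 / 32) ^ t := by
              rw [← pow_mul, mul_comm t 2, pow_mul, ← mul_pow]
              norm_num
      · rw [hE, hE, kp_succ]
    refine Rep.congr (h1.mono ?_) (fun x => ?_)
    · rw [← Finset.mul_sum]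
      calc _ ≤ ENNReal.ofReal ((25 / 32) ^ t) * 1 := by gcongr
        _ = _ := mul_one _
    · have h4 : ∑ i : Fin m, (E (kp m t i) x - E (kp m t (i + 1)) x) =
          ∑ i ∈ Finset.range m, (E (kp m t i) x - E (kp m t (i + 1)) x) :=
        (Finset.sum_range (fun i => E (kp m t i) x - E (kp m t (i + 1)) x)).symm
      rw [h4, Finset.sum_range_sub', kp_zero, kp_top]
  -- the last term
  have hfin : n1 v ≠ ⊤ := by
    unfold n1
    rw [tsum_eq_sum (s := hv.toFinset)]
    · exact ENNReal.sum_ne_top.mpr fun x _ => ENNReal.ofReal_ne_top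
    · intro x hx
      rw [Set.Finite.mem_toFinset, Function.mem_support, not_not] at hx
      rw [hx, abs_zero, ENNReal.ofReal_zero]
  have hlast : ∀ T : ℕ, Rep (E (fun _ => T)) (ENNReal.ofReal ((5 / 8) ^ T) * n1 v) := by
    intro T
    refine Rep.congr ((Rep.level (fun _ => T) (av v (fun _ => T)) (av_support hv _)).mono ?_)
      (fun x => hE _ x)
    have h5 : n1 (av v (fun _ => T)) ≤ ENNReal.ofReal (∏ _i : Fin m, (1 / 2 : ℝ) ^ T) * n1 v := by
      have : av v (fun _ => T) = fun q => (∏ _i : Fin m, (1 / 2 : ℝ) ^ T) * bs v (fun _ => T) q :=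
        rfl
      rw [this, n1_smul _ (Finset.prod_nonneg fun _ _ => by positivity)]
      gcongr
      exact n1_bs_le _ _
    calc _ ≤ (ENNReal.ofReal (∏ _i : Fin m, (1 / 2 : ℝ) ^ T) * n1 v) *
          ENNReal.ofReal (∏ _i : Fin m, (5 / 4 : ℝ) ^ T) := by gcongr
      _ = ENNReal.ofReal ((∏ _i : Fin m, (1 / 2 : ℝ) ^ T) * ∏ _i : Fin m, (5 / 4 : ℝ) ^ T) *
          n1 v := by
          rw [ENNReal.ofReal_mul (Finset.prod_nonneg fun _ _ => by positivity)]
          ring
      _ ≤ _ := by
          gcongr
          rw [← Finset.prod_mul_distrib, Finset.prod_const, Finset.card_univ, Fintype.card_fin,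
            ← mul_pow]
          calc ((1 / 2 * (5 / 4) : ℝ) ^ T) ^ m ≤ ((1 / 2 * (5 / 4) : ℝ) ^ T) ^ 1 :=
                pow_le_pow_of_le_one (by positivity) (pow_le_one₀ (by norm_num) (by norm_num))
                  (by omega)
            _ = _ := by rw [pow_one]; norm_num
  obtain ⟨T, hT⟩ : ∃ T : ℕ, ENNReal.ofReal ((5 / 8) ^ T) * n1 v ≤ 1 := by
    obtain ⟨T, hT⟩ := exists_pow_lt_of_lt_one (show (0 : ℝ) < 1 / ((n1 v).toReal + 1) by positivity)
      (show (5 / 8 : ℝ) < 1 by norm_num)
    refine ⟨T, ?_⟩
    rw [← ENNReal.ofReal_toReal hfin, ← ENNReal.ofReal_mul (by positivity), ← ENNReal.ofReal_one]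
    apply ENNReal.ofReal_le_ofReal
    have h0 : 0 ≤ (n1 v).toReal := ENNReal.toReal_nonneg
    calc (5 / 8 : ℝ) ^ T * (n1 v).toReal ≤ (1 / ((n1 v).toReal + 1)) * (n1 v).toReal := by gcongr
      _ ≤ 1 := by
          rw [one_div_mul_eq_div, div_le_one (by linarith)]
          linarith
  have htot : Rep (fun x => ∑ t ∈ Finset.range T, (E (fun _ => t) x - E (fun _ => t + 1) x) +
      E (fun _ => T) x) (∑ t ∈ Finset.range T, ENNReal.ofReal ((25 / 32) ^ t) + 1) :=
    (Rep.sum (Finset.range T) _ _ (fun t _ => hlev t)).add ((hlast T).mono hT)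
  refine Rep.congr (htot.mono ?_) (fun x => ?_)
  · rw [← ENNReal.ofReal_sum_of_nonneg (fun _ _ => by positivity)]
    have hs : Summable (fun t : ℕ => (25 / 32 : ℝ) ^ t) :=
      summable_geometric_of_lt_one (by norm_num) (by norm_num)
    have h6 : ∑ t ∈ Finset.range T, (25 / 32 : ℝ) ^ t ≤ 5 := by
      calc _ ≤ ∑' t : ℕ, (25 / 32 : ℝ) ^ t := hs.sum_le_tsum _ (fun _ _ => by positivity)
        _ = 32 / 7 := by
            rw [tsum_geometric_of_lt_one (by norm_num) (by norm_num)]
            norm_num
        _ ≤ 5 := by norm_num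
    calc _ ≤ ENNReal.ofReal 5 + ENNReal.ofReal 1 := by
          gcongr
          rw [ENNReal.ofReal_one]
      _ = ENNReal.ofReal 6 := by
          rw [← ENNReal.ofReal_add (by norm_num) (by norm_num)]
          norm_num
  · rw [Finset.sum_range_sub' (fun t => E (fun _ => t) x)]
    have h7 : E (fun _ => 0) x = v x := by
      rw [hE]
      unfold av
      rw [bs_zero]
      have : pr (fun _ => 0) x = x := by funext i; simp [pr]
      rw [this]
      simp
    rw [h7]
    ring

end Pool.Agent.H19.Kom
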