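import Pool.Agent.H19.Kom.Rep

/-!
Indicator functions of boxes of `ℤ^m` as combinations of dyadic boxes.
-/

set_option autoImplicit false

namespace Pool.Agent.H19.Kom

open Finset
open scoped ENNReal

variable {m : ℕ}

/-- the indicator of a dyadic interval -/
noncomputable def b1 (p : ℕ × ℤ) (x : ℤ) : ℝ := if x / 2 ^ p.1 = p.2 then 1 else 0

/-- **dyadic decomposition of an interval** -/
lemma interval_decomp : ∀ (L : ℕ) (a b : ℤ), b - a = L → ∃ D : Finset (ℕ × ℤ),
    (∀ x, ∑ p ∈ D, b1 p x = if a ≤ x ∧ x < b then 1 else 0) ∧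
    ∑ p ∈ D, (5 / 4 : ℝ) ^ p.1 ≤ 19 * Real.sqrt L := by
  intro L
  induction L using Nat.strong_induction_on with
  | _ L ih =>
  intro a b hab
  rcases Nat.eq_zero_or_pos L with rfl | hL
  · refine ⟨∅, fun x => ?_, by simp⟩
    rw [if_neg (by push_cast at hab; omega)]
    simp
  obtain ⟨L', hL'⟩ : ∃ L' : ℕ, b / 2 - (a + 1) / 2 = L' :=
    ⟨(b / 2 - (a + 1) / 2).toNat, by omega⟩
  have hlt : L' < L := by omega
  have h2 : 2 * L' ≤ L := by omega
  obtain ⟨D', hD1, hD2⟩ := ih L' hlt ((a + 1) / 2) (b / 2) hL'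
  -- shift the levels
  let sh : ℕ × ℤ ↪ ℕ × ℤ := ⟨fun p => (p.1 + 1, p.2), fun p q h => by
    simp only [Prod.mk.injEq, Nat.add_right_cancel_iff] at h
    exact Prod.ext h.1 h.2⟩
  have hsh : ∀ x, ∑ p ∈ D'.map sh, b1 p x = if (a + 1) / 2 ≤ x / 2 ∧ x / 2 < b / 2 then 1 else 0 := by
    intro x
    rw [Finset.sum_map, ← hD1 (x / 2)]
    apply Finset.sum_congr rfl
    intro p _
    show b1 (p.1 + 1, p.2) x = b1 p (x / 2)
    unfold b1
    simp only
    rw [pow_succ', Int.ediv_ediv_of_nonneg (by norm_num)]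
  have hshw : ∑ p ∈ D'.map sh, (5 / 4 : ℝ) ^ p.1 = 5 / 4 * ∑ p ∈ D', (5 / 4 : ℝ) ^ p.1 := by
    rw [Finset.sum_map, Finset.mul_sum]
    apply Finset.sum_congr rfl
    intro p _
    show (5 / 4 : ℝ) ^ (p.1 + 1) = _
    rw [pow_succ']
  have hshlev : ∀ p ∈ D'.map sh, 1 ≤ p.1 := by
    intro p hp
    rw [Finset.mem_map] at hp
    obtain ⟨q, _, rfl⟩ := hp
    show 1 ≤ q.1 + 1
    omega
  obtain ⟨E, hE⟩ : ∃ E : Finset (ℕ × ℤ), E =
      (if a % 2 = 1 then {((0 : ℕ), a)} else ∅) ∪ (if b % 2 = 1 then {((0 : ℕ), b - 1)} else ∅) :=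
    ⟨_, rfl⟩
  have hElev : ∀ p ∈ E, p.1 = 0 := by
    intro p hp
    rw [hE, Finset.mem_union] at hp
    rcases hp with hp | hp
    · split_ifs at hp
      · rw [Finset.mem_singleton] at hp; rw [hp]
      · simp at hp
    · split_ifs at hp
      · rw [Finset.mem_singleton] at hp; rw [hp]
      · simp at hp
  have hdisj : Disjoint (D'.map sh) E := by
    rw [Finset.disjoint_left]
    intro p h3 h4
    have := hshlev p h3
    have := hElev p h4
    omega
  have hdisj2 : Disjoint (if a % 2 = 1 then {((0 : ℕ), a)} else ∅ : Finset (ℕ × ℤ))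
      (if b % 2 = 1 then {((0 : ℕ), b - 1)} else ∅) := by
    rw [Finset.disjoint_left]
    intro p h3 h4
    split_ifs at h3 h4
    · rw [Finset.mem_singleton] at h3 h4
      rw [h3, Prod.mk.injEq] at h4
      omega
    all_goals simp at *
  have hEsum : ∀ x, ∑ p ∈ E, b1 p x = (if a % 2 = 1 ∧ x = a then 1 else 0) +
      (if b % 2 = 1 ∧ x = b - 1 then 1 else 0) := by
    intro x
    rw [hE, Finset.sum_union hdisj2]
    congr 1
    · by_cases h : a % 2 = 1
      · rw [if_pos h, Finset.sum_singleton]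
        unfold b1
        simp [h]
      · rw [if_neg h]; simp [h]
    · by_cases h : b % 2 = 1
      · rw [if_pos h, Finset.sum_singleton]
        unfold b1
        simp [h]
      · rw [if_neg h]; simp [h]
  have hEw : ∑ p ∈ E, (5 / 4 : ℝ) ^ p.1 ≤ 2 := by
    calc ∑ p ∈ E, (5 / 4 : ℝ) ^ p.1 = ∑ _p ∈ E, (1 : ℝ) := by
          apply Finset.sum_congr rfl
          intro p hp
          rw [hElev p hp, pow_zero]
      _ = (E.card : ℝ) := by simp
      _ ≤ 2 := by
          have h3 : E.card ≤ 2 := by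
            rw [hE]
            refine (Finset.card_union_le _ _).trans ?_
            have h4 : (if a % 2 = 1 then {((0 : ℕ), a)} else ∅ : Finset (ℕ × ℤ)).card ≤ 1 := by
              split_ifs <;> simp
            have h5 : (if b % 2 = 1 then {((0 : ℕ), b - 1)} else ∅ : Finset (ℕ × ℤ)).card ≤ 1 := by
              split_ifs <;> simp
            omega
          exact_mod_cast h3
  refine ⟨D'.map sh ∪ E, fun x => ?_, ?_⟩
  · rw [Finset.sum_union hdisj, hsh, hEsum]
    have key : ∀ P Q R S : Prop, [Decidable P] → [Decidable Q] → [Decidable R] → [Decidable S] →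
        (S ↔ P ∨ Q ∨ R) → ¬ (P ∧ Q) → ¬ (P ∧ R) → ¬ (Q ∧ R) →
        (if P then (1 : ℝ) else 0) + ((if Q then 1 else 0) + (if R then 1 else 0)) =
          if S then 1 else 0 := by
      intro P Q R S _ _ _ _ h1 h2 h3 h4
      by_cases hP : P
      · rw [if_pos hP, if_neg (fun h => h2 ⟨hP, h⟩), if_neg (fun h => h3 ⟨hP, h⟩),
          if_pos (h1.2 (Or.inl hP))]
        norm_num
      · by_cases hQ : Q
        · rw [if_neg hP, if_pos hQ, if_neg (fun h => h4 ⟨hQ, h⟩),
            if_pos (h1.2 (Or.inr (Or.inl hQ)))]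
          norm_num
        · by_cases hR : R
          · rw [if_neg hP, if_neg hQ, if_pos hR, if_pos (h1.2 (Or.inr (Or.inr hR)))]
            norm_num
          · rw [if_neg hP, if_neg hQ, if_neg hR, if_neg (fun h => by
              rcases h1.1 h with h | h | h
              · exact hP h
              · exact hQ h
              · exact hR h)]
            norm_num
    apply key
    · omega
    · omega
    · omega
    · omega
  · rw [Finset.sum_union hdisj, hshw]
    have hL1 : (1 : ℝ) ≤ L := by exact_mod_cast hL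
    have hs1 : 1 ≤ Real.sqrt L := by
      rw [Real.one_le_sqrt]; exact hL1
    have hs : Real.sqrt L' ≤ (5 / 7) * Real.sqrt L := by
      apply Real.sqrt_le_iff.mpr
      refine ⟨by positivity, ?_⟩
      rw [mul_pow, Real.sq_sqrt (by positivity)]
      have : (2 * L' : ℝ) ≤ L := by exact_mod_cast h2
      have h0 : (0 : ℝ) ≤ L := by positivity
      nlinarith
    have h0 : (0 : ℝ) ≤ Real.sqrt L' := Real.sqrt_nonneg _
    nlinarith

/-- **indicator functions of boxes** -/
theorem Rep.box (l u : Fin m → ℤ) :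
    Rep (fun x => if x ∈ Finset.Icc l u then 1 else 0)
      (ENNReal.ofReal (19 ^ m * Real.sqrt (Finset.Icc l u).card)) := by
  classical
  by_cases hlu : ∀ i, l i ≤ u i
  swap
  · push Not at hlu
    obtain ⟨i, hi⟩ := hlu
    refine (Rep.congr (Rep.zero (m := m)) fun x => ?_).mono zero_le
    rw [if_neg]
    rw [Finset.mem_Icc]
    rintro ⟨h1, h2⟩
    have h3 : l i ≤ x i := h1 i
    have h4 : x i ≤ u i := h2 i
    omega
  have hex : ∀ i, ∃ D : Finset (ℕ × ℤ),
      (∀ x, ∑ p ∈ D, b1 p x = if l i ≤ x ∧ x < u i + 1 then 1 else 0) ∧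
      ∑ p ∈ D, (5 / 4 : ℝ) ^ p.1 ≤ 19 * Real.sqrt ((u i + 1 - l i).toNat : ℕ) := fun i =>
    interval_decomp (u i + 1 - l i).toNat (l i) (u i + 1) (by
      have := hlu i
      omega)
  choose D hD1 hD2 using hex
  obtain ⟨S, hS⟩ : ∃ S : Finset (Row m), S = Fintype.piFinset D := ⟨_, rfl⟩
  have hone : ∀ r, (Finsupp.onFinset S (fun r => if r ∈ S then (1 : ℝ) else 0) (by
      intro r hr
      by_contra h
      simp [h] at hr)) r = if r ∈ S then (1 : ℝ) else 0 := fun r => rfl
  refine ⟨Finsupp.onFinset S (fun r => if r ∈ S then (1 : ℝ) else 0) (by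
      intro r hr
      by_contra h
      simp [h] at hr), fun x => ?_, ?_⟩
  · rw [Finsupp.onFinset_sum _ (by simp)]
    have e1 : ∑ r ∈ S, (if r ∈ S then (1 : ℝ) else 0) * bx r x = ∑ r ∈ S, ∏ i, b1 (r i) (x i) := by
      apply Finset.sum_congr rfl
      intro r hr
      rw [if_pos hr, one_mul]
      rfl
    rw [e1, hS, ← Finset.prod_univ_sum D (fun i p => b1 p (x i))]
    simp_rw [hD1]
    rw [Finset.prod_ite_zero, Finset.prod_const_one]
    have hiff : x ∈ Finset.Icc l u ↔ ∀ i ∈ Finset.univ, l i ≤ x i ∧ x i < u i + 1 := by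
      rw [Finset.mem_Icc]
      constructor
      · rintro ⟨h1, h2⟩ i _
        have h3 : l i ≤ x i := h1 i
        have h4 : x i ≤ u i := h2 i
        exact ⟨h3, by omega⟩
      · intro h
        exact ⟨fun i => (h i (Finset.mem_univ i)).1, fun i => by
          have := (h i (Finset.mem_univ i)).2
          show x i ≤ u i
          omega⟩
    by_cases hx : x ∈ Finset.Icc l u
    · rw [if_pos hx, if_pos (hiff.1 hx)]
    · rw [if_neg hx, if_neg (fun h => hx (hiff.2 h))]
  · have e1 : ∑' r : Row m, ENNReal.ofReal (|(Finsupp.onFinset S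
        (fun r => if r ∈ S then (1 : ℝ) else 0) (by
          intro r hr
          by_contra h
          simp [h] at hr)) r| * wt r) = ∑ r ∈ S, ENNReal.ofReal (wt r) := by
      rw [tsum_eq_sum (s := S)]
      · apply Finset.sum_congr rfl
        intro r hr
        rw [hone, if_pos hr, abs_one, one_mul]
      · intro r hr
        rw [hone, if_neg hr, abs_zero, zero_mul, ENNReal.ofReal_zero]
    rw [e1, ← ENNReal.ofReal_sum_of_nonneg (fun r _ => (wt_pos r).le)]
    apply ENNReal.ofReal_le_ofReal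
    have e2 : ∑ r ∈ S, wt r = ∏ i, ∑ p ∈ D i, (5 / 4 : ℝ) ^ p.1 := by
      rw [hS, Finset.prod_univ_sum D (fun _ p => (5 / 4 : ℝ) ^ p.1)]
      rfl
    rw [e2, Pi.card_Icc]
    simp_rw [Int.card_Icc]
    calc _ ≤ ∏ i, (19 * Real.sqrt ((u i + 1 - l i).toNat : ℕ)) :=
          Finset.prod_le_prod (fun i _ => Finset.sum_nonneg fun p _ => by positivity)
            (fun i _ => hD2 i)
      _ = 19 ^ m * Real.sqrt (∏ i, (u i + 1 - l i).toNat : ℕ) := by
          rw [Finset.prod_mul_distrib]
          congr 1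
          · simp
          · push_cast
            rw [Real.sqrt_prod]
            intro i _
            positivity

end Pool.Agent.H19.Kom
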