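import Pool.Agent.H19.Kom.BG

/-!
Functions on `ℤ^m` which are combinations of indicator functions of dyadic boxes, and rounding of
families of such functions.
-/

set_option autoImplicit false

namespace Pool.Agent.H19.Kom

open Finset
open scoped ENNReal

variable {m : ℕ}

/-- dyadic boxes of `ℤ^m`: in direction `i` the interval of length `2 ^ (r i).1` with index
`(r i).2` -/
abbrev Row (m : ℕ) := Fin m → ℕ × ℤ

/-- the indicator function of a dyadic box -/
noncomputable def bx (r : Row m) (x : Fin m → ℤ) : ℝ :=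
  ∏ i, if x i / 2 ^ (r i).1 = (r i).2 then 1 else 0

/-- the weight of a dyadic box -/
noncomputable def wt (r : Row m) : ℝ := ∏ i, (5 / 4 : ℝ) ^ (r i).1

lemma wt_pos (r : Row m) : 0 < wt r := Finset.prod_pos fun _ _ => by positivity

lemma bx_nonneg (r : Row m) (x : Fin m → ℤ) : 0 ≤ bx r x :=
  Finset.prod_nonneg fun i _ => by split_ifs <;> norm_num

/-- `v` is a combination of dyadic boxes of total weight at most `C` -/
def Rep (v : (Fin m → ℤ) → ℝ) (C : ℝ≥0∞) : Prop :=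
  ∃ c : Row m →₀ ℝ, (∀ x, v x = c.sum fun r a => a * bx r x) ∧
    ∑' r, ENNReal.ofReal (|c r| * wt r) ≤ C

lemma Rep.mono {v : (Fin m → ℤ) → ℝ} {C C' : ℝ≥0∞} (h : Rep v C) (hC : C ≤ C') : Rep v C' := by
  obtain ⟨c, h1, h2⟩ := h
  exact ⟨c, h1, h2.trans hC⟩

lemma Rep.zero : Rep (fun _ : Fin m → ℤ => 0) 0 := ⟨0, by simp, by simp⟩

lemma Rep.add {v w : (Fin m → ℤ) → ℝ} {C D : ℝ≥0∞} (hv : Rep v C) (hw : Rep w D) :
    Rep (fun x => v x + w x) (C + D) := by
  classical
  obtain ⟨c, h1, h2⟩ := hv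
  obtain ⟨d, h3, h4⟩ := hw
  refine ⟨c + d, fun x => ?_, ?_⟩
  · simp only
    rw [h1, h3, Finsupp.sum_add_index']
    · intro r; simp
    · intro r a b; ring
  · calc ∑' r, ENNReal.ofReal (|(c + d) r| * wt r) ≤
          ∑' r, (ENNReal.ofReal (|c r| * wt r) + ENNReal.ofReal (|d r| * wt r)) := by
          apply ENNReal.tsum_le_tsum
          intro r
          have hw := wt_pos r
          rw [← ENNReal.ofReal_add (by positivity) (by positivity), ← add_mul]
          apply ENNReal.ofReal_le_ofReal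
          gcongr
          exact abs_add_le _ _
      _ = ∑' r, ENNReal.ofReal (|c r| * wt r) + ∑' r, ENNReal.ofReal (|d r| * wt r) :=
          ENNReal.tsum_add
      _ ≤ _ := add_le_add h2 h4

lemma Rep.smul {v : (Fin m → ℤ) → ℝ} {C : ℝ≥0∞} (a : ℝ) (hv : Rep v C) :
    Rep (fun x => a * v x) (ENNReal.ofReal |a| * C) := by
  obtain ⟨c, h1, h2⟩ := hv
  refine ⟨a • c, fun x => ?_, ?_⟩
  · simp only
    rw [h1, Finsupp.sum_smul_index' (by simp), Finsupp.sum, Finsupp.sum, Finset.mul_sum]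
    apply Finset.sum_congr rfl
    intro r _
    simp only [smul_eq_mul]
    ring
  · calc ∑' r, ENNReal.ofReal (|(a • c) r| * wt r) =
          ∑' r, ENNReal.ofReal |a| * ENNReal.ofReal (|c r| * wt r) := by
          congr 1; ext1 r
          rw [← ENNReal.ofReal_mul (abs_nonneg a), Finsupp.smul_apply, smul_eq_mul, abs_mul,
            mul_assoc]
      _ = ENNReal.ofReal |a| * ∑' r, ENNReal.ofReal (|c r| * wt r) := ENNReal.tsum_mul_left
      _ ≤ _ := by gcongr

lemma Rep.congr {v w : (Fin m → ℤ) → ℝ} {C : ℝ≥0∞} (hv : Rep v C) (h : ∀ x, w x = v x) :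
    Rep w C := by
  have : w = v := funext h
  rw [this]; exact hv

lemma Rep.sum {ι : Type*} (s : Finset ι) (v : ι → (Fin m → ℤ) → ℝ) (C : ι → ℝ≥0∞)
    (h : ∀ i ∈ s, Rep (v i) (C i)) : Rep (fun x => ∑ i ∈ s, v i x) (∑ i ∈ s, C i) := by
  classical
  induction s using Finset.induction_on with
  | empty => simpa using (Rep.zero (m := m))
  | insert a s ha ih =>
    rw [Finset.sum_insert ha]
    refine Rep.congr ((h a (Finset.mem_insert_self a s)).add
      (ih fun i hi => h i (Finset.mem_insert_of_mem hi))) (fun x => ?_)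
    rw [Finset.sum_insert ha]

/-- one point is in few boxes -/
lemma sum_bx_div (R : Finset (Row m)) (x : Fin m → ℤ) : ∑ r ∈ R, bx r x / wt r ≤ 5 ^ m := by
  classical
  obtain ⟨g, hg⟩ : ∃ g : Fin m → ℕ × ℤ → ℝ, ∀ i p, g i p =
      if x i / 2 ^ p.1 = p.2 then (4 / 5 : ℝ) ^ p.1 else 0 := ⟨_, fun _ _ => rfl⟩
  have hg0 : ∀ i p, 0 ≤ g i p := fun i p => by
    rw [hg]; split_ifs <;> positivity
  obtain ⟨P, hP⟩ : ∃ P : Finset (ℕ × ℤ), P = R.biUnion (fun r => Finset.univ.image r) := ⟨_, rfl⟩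
  have h1 : ∀ r ∈ R, bx r x / wt r = ∏ i, g i (r i) := by
    intro r _
    unfold bx wt
    rw [← Finset.prod_div_distrib]
    apply Finset.prod_congr rfl
    intro i _
    rw [hg]
    split_ifs with h
    · rw [one_div, ← inv_pow]; norm_num
    · rw [zero_div]
  have h2 : R ⊆ Fintype.piFinset (fun _ => P) := by
    intro r hr
    rw [Fintype.mem_piFinset]
    intro i
    rw [hP, Finset.mem_biUnion]
    exact ⟨r, hr, Finset.mem_image_of_mem r (Finset.mem_univ i)⟩
  have h3 : ∀ i, ∑ p ∈ P, g i p ≤ 5 := by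
    intro i
    have e1 : ∑ p ∈ P, g i p = ∑ p ∈ P.filter (fun p => x i / 2 ^ p.1 = p.2), (4 / 5 : ℝ) ^ p.1 := by
      rw [Finset.sum_filter]
      exact Finset.sum_congr rfl fun p _ => hg i p
    have hinj : Set.InjOn (Prod.fst : ℕ × ℤ → ℕ)
        (P.filter (fun p => x i / 2 ^ p.1 = p.2) : Finset (ℕ × ℤ)) := by
      rintro ⟨k, q⟩ h4 ⟨k', q'⟩ h5 h6
      rw [Finset.mem_coe, Finset.mem_filter] at h4 h5
      simp only at h4 h5 h6
      subst h6
      rw [← h4.2, ← h5.2]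
    have e2 : ∑ p ∈ P.filter (fun p => x i / 2 ^ p.1 = p.2), (4 / 5 : ℝ) ^ p.1 =
        ∑ k ∈ (P.filter (fun p => x i / 2 ^ p.1 = p.2)).image Prod.fst, (4 / 5 : ℝ) ^ k := by
      rw [Finset.sum_image hinj]
    rw [e1, e2]
    have hs : Summable (fun k : ℕ => (4 / 5 : ℝ) ^ k) :=
      summable_geometric_of_lt_one (by norm_num) (by norm_num)
    calc _ ≤ ∑' k : ℕ, (4 / 5 : ℝ) ^ k := hs.sum_le_tsum _ (fun k _ => by positivity)
      _ = 5 := by
          rw [tsum_geometric_of_lt_one (by norm_num) (by norm_num)]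
          norm_num
  calc ∑ r ∈ R, bx r x / wt r = ∑ r ∈ R, ∏ i, g i (r i) := Finset.sum_congr rfl h1
    _ ≤ ∑ r ∈ Fintype.piFinset (fun _ => P), ∏ i, g i (r i) :=
        Finset.sum_le_sum_of_subset_of_nonneg h2
          (fun r _ _ => Finset.prod_nonneg fun i _ => hg0 i _)
    _ = ∏ i, ∑ p ∈ P, g i p := (Finset.prod_univ_sum (fun _ => P) g).symm
    _ ≤ ∏ _i : Fin m, (5 : ℝ) := Finset.prod_le_prod
        (fun i _ => Finset.sum_nonneg fun p _ => hg0 i p) (fun i _ => h3 i)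
    _ = 5 ^ m := by simp

/-- **Rounding of families of combinations of dyadic boxes.** -/
theorem rounding {J : Type*} [Fintype J] (v : J → (Fin m → ℤ) → ℝ) {C : ℝ} (hC : 0 < C)
    (hv : ∀ j, Rep (v j) (ENNReal.ofReal C)) (x0 : J → ℝ) (hx0 : ∀ j, |x0 j| ≤ 1) :
    ∃ y : J → ℝ, (∀ j, y j = 1 ∨ y j = -1) ∧ ∀ x, |∑ j, (y j - x0 j) * v j x| ≤ 2 * C * 5 ^ m := by
  classical
  choose c h1 h2 using hv
  obtain ⟨R, hR⟩ : ∃ R : Finset (Row m), R = Finset.univ.biUnion (fun j => (c j).support) :=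
    ⟨_, rfl⟩
  have hsub : ∀ j, (c j).support ⊆ R := fun j => by
    rw [hR]; exact Finset.subset_biUnion_of_mem (fun j => (c j).support) (Finset.mem_univ j)
  have hsum : ∀ j, ∑ r ∈ R, |c j r| * wt r ≤ C := by
    intro j
    have h3 : ∑ r ∈ R, ENNReal.ofReal (|c j r| * wt r) ≤ ENNReal.ofReal C :=
      (ENNReal.sum_le_tsum R).trans (h2 j)
    rw [← ENNReal.ofReal_sum_of_nonneg (fun r _ => mul_nonneg (abs_nonneg _) (wt_pos r).le)] at h3
    exact (ENNReal.ofReal_le_ofReal_iff hC.le).mp h3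
  obtain ⟨y, hy1, hy2⟩ := bg (fun (j : J) (r : R) => c j r * wt (r : Row m) / C) (by
    intro j
    have h3 : ∀ r : R, |c j r * wt (r : Row m) / C| = |c j r| * wt (r : Row m) / C := by
      intro r
      rw [abs_div, abs_mul, abs_of_pos (wt_pos _), abs_of_pos hC]
    simp_rw [h3]
    rw [← Finset.sum_div, div_le_one hC]
    calc _ = ∑ r ∈ R, |c j r| * wt r := Finset.sum_coe_sort R (fun r => |c j r| * wt r)
      _ ≤ C := hsum j) x0 hx0
  refine ⟨y, hy1, fun x => ?_⟩
  have e1 : ∀ j, v j x = ∑ r ∈ R, c j r * bx r x := by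
    intro j
    rw [h1 j x]
    exact Finsupp.sum_of_support_subset _ (hsub j) _ (by simp)
  have e2 : ∑ j, (y j - x0 j) * v j x =
      ∑ r ∈ R, (C * (bx r x / wt r)) * ∑ j, (y j - x0 j) * (c j r * wt r / C) := by
    simp_rw [e1, Finset.mul_sum]
    rw [Finset.sum_comm]
    apply Finset.sum_congr rfl
    intro r _
    apply Finset.sum_congr rfl
    intro j _
    have := (wt_pos r).ne'
    field_simp
  rw [e2]
  calc _ ≤ ∑ r ∈ R, |(C * (bx r x / wt r)) * ∑ j, (y j - x0 j) * (c j r * wt r / C)| :=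
        Finset.abs_sum_le_sum_abs _ _
    _ ≤ ∑ r ∈ R, (C * (bx r x / wt r)) * 2 := by
        apply Finset.sum_le_sum
        intro r hr
        have h3 : 0 ≤ C * (bx r x / wt r) :=
          mul_nonneg hC.le (div_nonneg (bx_nonneg r x) (wt_pos r).le)
        rw [abs_mul, abs_of_nonneg h3]
        gcongr
        exact hy2 ⟨r, hr⟩
    _ = 2 * C * ∑ r ∈ R, bx r x / wt r := by
        rw [Finset.mul_sum]
        apply Finset.sum_congr rfl
        intro r _
        ring
    _ ≤ _ := by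
        have := sum_bx_div R x
        gcongr

end Pool.Agent.H19.Kom
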